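import Pool.Agent.R419.ST.FamF
import Pool.Agent.R419.CG.Fin
import Pool.Agent.Y703.CT.T1d

/-!
# Finite descent of a uniform level for families over products of cubic twists

Let `E_D` be the curve `y² + D y = x³` over `ℚ` (it is 3-isogenous to `x³ + y³ = D`).  Let `D` run over ALL
cube-free numbers `≡ ±4` modulo `9` with exactly one prime factor `≡ 2` modulo `3`, and call `D` good if
`E_D(ℚ)` is finite and `Ш(E_D/ℚ)[3^∞] = 0`.

Theorem.
(1) The proportion of the good `D` tends exactly to `∏_{i ≥ 1} (1 - 3^{-i}) = 0.5601…`.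
(2) Let `X_D ⊂ ℙ^N × E_{D_1} × … × E_{D_n}` be any family of closed subsets, with equations which are
polynomials in `D_1, …, D_n` and in the coordinates: for instance any family of curves with a morphism to
`E_{D_1} × … × E_{D_n}`.  Let `Z` be a closed subset of `(ℤ_3)^n` such that for `d ∈ Z`, `d_i ≡ ±4` modulo
`9`, there is no 3-adic point of `X_d` above the `3^n` points `T_d = ∏ {O, (0, 0), (0, -d_i)}`.  Then there
is ONE level `3 ^ k` such that the `3 ^ k`-Selmer set of `X_D` is empty for all the `D ∈ Z` with good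
components.
(3) If the `D_i` are good and if the point `(u, P)` of `X_D(ℚ_3)` is the component at three of a point which
survives all the descents by `3 ^ k`-coverings of `E_{D_1} × … × E_{D_n}`, then `P ∈ T_D`; so `P` is
rational.  If `X` is a closed subset of `E_{D_1} × … × E_{D_n}` without rational points, for instance a curve,
then some `3 ^ k`-Selmer set of `X` is empty.
(4) Example: the smooth curves of genus three `C_D : y² + D y = x³, w² = -3 x² + 28 D y + 21 D²` have points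
over `ℝ` and over all `ℚ_p`, for all `D` prime to three; and the 3-Selmer set of `C_D` is empty for all the
good `D`.  So 56 percent of the `D` give counterexamples to the Hasse principle which are explained by
coverings of degree three of `E_D`, hence also by the 3-coverings of `C_D` from its Jacobian (this
remark, and the smoothness and the genus, are not part of the Lean theorem).

The proof.  A `3 ^ k`-covering with points over all completions comes from a rational point `y`, so a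
3-adic point `P` which lifts to it is `y + 3 ^ k z`.  The points of `E_d(ℚ_3)`, `d ≡ ±4` modulo `9`, of
finite order are `O, (0, 0), (0, -d)`, and `3 ^ k E_d(ℚ_3)` is contained in the disc of radius `3^{-k-1}`
around the origin, uniformly in `d`; so `P` is near to `T_D`, and the theorem follows from the compactness of
`Z` and of the projective spaces.  In the example the fibres above the three points of `T_D` are
`w² = -3`, `w² = 21`, `w² = -7` (up to squares): there are no 3-adic points, but for every other place one of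
the three numbers is a square.
-/

set_option autoImplicit false

open WeierstrassCurve MvPolynomial Pool.Agent.TH954

open scoped Classical

namespace Pool.Agent.Results.MP_d37f77_nt.CubicTwistFamilies

/-- The curve `y² + D y = x³` over `ℚ`. -/
def curve (D : ℕ) : WeierstrassCurve ℚ := ⟨0, 0, (D : ℚ), 0, 0⟩

/-- `D` is cube-free, congruent to `±4` modulo `9`, and exactly one prime factor of `D` is congruent to `2`
modulo `3`. -/
def InClass (D : ℕ) : Prop :=
  (∀ p : ℕ, p.Prime → ¬ p ^ 3 ∣ D) ∧ (D % 9 = 4 ∨ D % 9 = 5) ∧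
    ∃ q : ℕ, q.Prime ∧ q % 3 = 2 ∧ q ∣ D ∧ ∀ p : ℕ, p.Prime → p ∣ D → p ≠ q → p % 3 = 1

/-- `E_D(ℚ)` is finite and `Ш(E_D/ℚ)[3^∞] = 0`. -/
def FiniteAndTrivial (D : ℕ) : Prop :=
  Finite (curve D).toAffine.Point ∧
    ∀ (m : ℕ) (x : Pool.Agent.TH841.SH.D.Sha (curve D)), 3 ^ m • x = 0 → x = 0

/-- The variables of the equations of a family: the parameters `D_1, …, D_n`, the homogeneous coordinates
`u_0, …, u_N` on `ℙ^N` and the homogeneous coordinates `(X : Y : Z)` of the points `P_1, …, P_n`. -/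
abbrev Coord (n N : ℕ) : Type := Fin n ⊕ Fin (N + 1) ⊕ (Fin n × Fin 3)

section families

variable {n N : ℕ}

/-- `f` is homogeneous in the coordinates on `ℙ^N` and in the coordinates of each of the `P_i`. -/
def Homogeneous (f : MvPolynomial (Coord n N) ℚ) : Prop :=
  ∃ (e₀ : ℕ) (e : Fin n → ℕ), ∀ m ∈ f.support, ∑ j, m (Sum.inr (Sum.inl j)) = e₀ ∧
    ∀ i, ∑ j, m (Sum.inr (Sum.inr (i, j))) = e i

/-- All the equations in `S` hold at `(d, u, v)`. -/
def Vanish (S : Set (MvPolynomial (Coord n N) ℚ)) {L : Type} [Field L] [Algebra ℚ L]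
    (d : Fin n → L) (u : Fin (N + 1) → L) (v : Fin n → Fin 3 → L) : Prop :=
  ∀ f ∈ S, aeval (Sum.elim d (Sum.elim u fun p => v p.1 p.2)) f = 0

/-- The points over `L` of the closed subset `X_D` of `ℙ^N × E_{D_1} × … × E_{D_n}` defined by the equations
in `S`; the point of `ℙ^N` is given by its homogeneous coordinates. -/
def LocalPoints (S : Set (MvPolynomial (Coord n N) ℚ)) (D : Fin n → ℕ) (L : Type) [Field L]
    [Algebra ℚ L] :
    Set ((Fin (N + 1) → L) × ((i : Fin n) → ((curve (D i)).baseChange L).toAffine.Point)) :=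
  {x | x.1 ≠ 0 ∧ Vanish S (fun i => (D i : L)) x.1 fun i => crd (x.2 i)}

/-- The rational points of `X_D`. -/
def RationalPoints (S : Set (MvPolynomial (Coord n N) ℚ)) (D : Fin n → ℕ) :
    Set ((Fin (N + 1) → ℚ) × ((i : Fin n) → (curve (D i)).toAffine.Point)) :=
  {x | x.1 ≠ 0 ∧ Vanish S (fun i => (D i : ℚ)) x.1 fun i => crd (x.2 i)}

/-- The homogeneous coordinates of the points `O`, `(0, 0)` and `(0, -d)` of `y² + d y = x³`. -/
def torsionPoint {L : Type} [Field L] (d : L) : Fin 3 → Fin 3 → L :=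
  ![![0, 1, 0], ![0, 0, 1], ![0, -d, 1]]

/-- For `d ∈ Z` with `d_i ≡ ±4` modulo `9` there is no point over `ℚ_3` of `X_d` whose component on
`E_{d_1} × … × E_{d_n}` belongs to `∏ {O, (0, 0), (0, -d_i)}`. -/
def AvoidsTorsion (S : Set (MvPolynomial (Coord n N) ℚ)) (Z : Set (Fin n → ℤ_[3])) : Prop :=
  ∀ d ∈ Z, (∀ i, ‖d i - 4‖ ≤ 1 / 9 ∨ ‖d i + 4‖ ≤ 1 / 9) →
    ∀ (t : Fin n → Fin 3) (u : Fin (N + 1) → ℚ_[3]), u ≠ 0 →
      ¬ Vanish S (fun i => (d i : ℚ_[3])) u fun i => torsionPoint (d i : ℚ_[3]) (t i)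

end families

/-- The `L`-rational point `P` of `E_1 × … × E_n` lifts to an `L`-rational point of the `M`-covering
given by the cocycles `ξ i`: there are points `Q i` over the algebraic closure with `M • Q i = P i`
on which the Galois group of `L` acts by translation by the `ξ i`. -/
def Lifts {K : Type} [Field K] {n : ℕ} (E : Fin n → WeierstrassCurve K) (M : ℕ)
    (ξ : (i : Fin n) → (AlgebraicClosure K ≃ₐ[K] AlgebraicClosure K) → AlgPt (E i) K)
    (L : Type) [Field L] [Algebra K L] (P : (i : Fin n) → ((E i).baseChange L).toAffine.Point) :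
    Prop :=
  ∃ (ι : AlgebraicClosure K →ₐ[K] AlgebraicClosure L) (Q : (i : Fin n) → AlgPt (E i) L),
    (∀ i, M • Q i = incl (E i) L (P i)) ∧
      ∀ i σ τ, Compat ι σ τ → pm (E i) ι (ξ i τ) = act (E i) σ (Q i) - Q i

/-- The `M`-Selmer set of `X_D`: the `M`-coverings of `E_{D_1} × … × E_{D_n}` over `ℚ` whose pull-backs to
`X_D` have points over `ℝ` and over all the `ℚ_p`. -/
def SelmerSet {n N : ℕ} (S : Set (MvPolynomial (Coord n N) ℚ)) (D : Fin n → ℕ) (M : ℕ) :
    Set ((i : Fin n) → Pool.Agent.TH841.SH.D.Gal ℚ → AlgPt (curve (D i)) ℚ) :=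
  {ξ | (∀ i, IsCocycle (curve (D i)) (ξ i)) ∧ (∀ i σ, M • ξ i σ = 0) ∧
    (∀ (p : ℕ) [Fact p.Prime], ∃ x ∈ LocalPoints S D ℚ_[p],
      Lifts (fun i => curve (D i)) M ξ ℚ_[p] x.2) ∧
    ∃ x ∈ LocalPoints S D ℝ, Lifts (fun i => curve (D i)) M ξ ℝ x.2}

/-- The parameter `D` of the example. -/
noncomputable def parD : MvPolynomial (Coord 1 2) ℚ := X (Sum.inl 0)

/-- The homogeneous coordinates `(w : x : 1)` on `ℙ²`. -/
noncomputable def crdU (j : Fin 3) : MvPolynomial (Coord 1 2) ℚ := X (Sum.inr (Sum.inl j))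

/-- The homogeneous coordinates `(X : Y : Z)` of the point of `E_D`. -/
noncomputable def crdV (j : Fin 3) : MvPolynomial (Coord 1 2) ℚ := X (Sum.inr (Sum.inr (0, j)))

/-- `w² + 3 x²` -/
noncomputable def quad : MvPolynomial (Coord 1 2) ℚ := crdU 0 * crdU 0 + C 3 * (crdU 1 * crdU 1)

/-- `28 D u_j²`, where `u = (w : x : 1)` -/
noncomputable def par28 (j : Fin 3) : MvPolynomial (Coord 1 2) ℚ :=
  C 28 * parD * (crdU j * crdU j)

/-- `21 D²` -/
noncomputable def par21 : MvPolynomial (Coord 1 2) ℚ := C 21 * (parD * parD) * (crdU 2 * crdU 2)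

/-- `Y + D Z` -/
noncomputable def line : MvPolynomial (Coord 1 2) ℚ := crdV 1 + parD * crdV 2

/-- `(x : 1) = (X : Z)` -/
noncomputable def eq1 : MvPolynomial (Coord 1 2) ℚ := crdU 1 * crdV 2 - crdU 2 * crdV 0

/-- `w² + 3 x² = 28 D y + 21 D²`, multiplied by `Z` -/
noncomputable def eq2 : MvPolynomial (Coord 1 2) ℚ :=
  quad * crdV 2 - par28 2 * crdV 1 - par21 * crdV 2

/-- `w² + 3 x² = 28 D y + 21 D²`, multiplied by `Y + D Z`; here `y (Y + D Z) = x² X` -/
noncomputable def eq3 : MvPolynomial (Coord 1 2) ℚ :=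
  quad * line - par28 1 * crdV 0 - par21 * line

/-- The equations of the curve `C_D : y² + D y = x³`, `w² = -3 x² + 28 D y + 21 D²` in `ℙ² × E_D`. -/
noncomputable def exampleEqs : Set (MvPolynomial (Coord 1 2) ℚ) := {eq1, eq2, eq3}

lemma exampleEqs_eq : exampleEqs = Pool.Agent.R419.ST.exS := rfl

/-- (1) The number of the `D ≤ X` of the class is at least `c X / √(log X)`, and the proportion of the good
ones tends to `∏ (1 - 3^{-i}) > 0.56`. -/
def ProportionLaw : Prop :=
  (∃ c : ℝ, 0 < c ∧ ∃ X₀ : ℕ, ∀ X : ℕ, X₀ ≤ X →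
      c * X / Real.sqrt (Real.log X) ≤ (((Finset.Icc 1 X).filter fun D => InClass D).card : ℝ)) ∧
    Filter.Tendsto (fun X : ℕ =>
        (((Finset.Icc 1 X).filter fun D => InClass D ∧ FiniteAndTrivial D).card : ℝ) /
        (((Finset.Icc 1 X).filter fun D => InClass D).card : ℝ)) Filter.atTop
      (nhds (∏' i : ℕ, (1 - (1 / 3 : ℝ) ^ (i + 1)))) ∧
    (0.56 : ℝ) < ∏' i : ℕ, (1 - (1 / 3 : ℝ) ^ (i + 1))

/-- (2) One level `3 ^ k` for the whole family `X_D`, `D ∈ Z`, `D_i` good, if there are no 3-adic points above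
the torsion points. -/
def OneLevel : Prop :=
  ∀ (n N : ℕ) (S : Set (MvPolynomial (Coord n N) ℚ)), (∀ f ∈ S, Homogeneous f) →
    ∀ Z : Set (Fin n → ℤ_[3]), IsClosed Z → AvoidsTorsion S Z →
      ∃ k : ℕ, ∀ D : Fin n → ℕ, (∀ i, InClass (D i) ∧ FiniteAndTrivial (D i)) →
        (fun i => (D i : ℤ_[3])) ∈ Z → SelmerSet S D (3 ^ k) = ∅

/-- (3) If the `D_i` are good: the component in `∏ E_{D_i}(ℚ_3)` of a 3-adic point of `X_D` which lifts for
every `k` to an element of the `3 ^ k`-Selmer set belongs to `∏ {O, (0, 0), (0, -D_i)}`; and if `N = 0`, so that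
`X_D` is a closed subset of `∏ E_{D_i}`, and `X_D(ℚ)` is empty, then some `3 ^ k`-Selmer set is empty. -/
def ComponentsAtThree : Prop :=
  ∀ (n N : ℕ) (S : Set (MvPolynomial (Coord n N) ℚ)), (∀ f ∈ S, Homogeneous f) →
    ∀ D : Fin n → ℕ, (∀ i, InClass (D i) ∧ FiniteAndTrivial (D i)) →
      (∀ x ∈ LocalPoints S D ℚ_[3],
        (∀ k : ℕ, ∃ ξ ∈ SelmerSet S D (3 ^ k), Lifts (fun i => curve (D i)) (3 ^ k) ξ ℚ_[3] x.2) →
          ∀ i, ∃ t : Fin 3, crd (x.2 i) = torsionPoint (D i : ℚ_[3]) t) ∧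
      (N = 0 → RationalPoints S D = ∅ → ∃ k : ℕ, SelmerSet S D (3 ^ k) = ∅)

/-- (4) The example: points everywhere locally, but the 3-Selmer set is empty. -/
def Example : Prop :=
  (∀ D : ℕ, ¬ 3 ∣ D →
    (∀ (p : ℕ) [Fact p.Prime], (LocalPoints exampleEqs (fun _ => D) ℚ_[p]).Nonempty) ∧
      (LocalPoints exampleEqs (fun _ => D) ℝ).Nonempty) ∧
  ∀ D : ℕ, InClass D → FiniteAndTrivial D → SelmerSet exampleEqs (fun _ => D) 3 = ∅

section

variable {n N : ℕ}

lemma onF_iff (S : Set (MvPolynomial (Coord n N) ℚ)) (D : Fin n → ℕ) (L : Type) [Field L]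
    [Algebra ℚ L]
    (x : (Fin (N + 1) → L) × ((i : Fin n) → ((curve (D i)).baseChange L).toAffine.Point)) :
    x ∈ LocalPoints S D L ↔ Pool.Agent.R419.ST.OnF S D L x.1 x.2 := Iff.rfl

lemma sel_eq (S : Set (MvPolynomial (Coord n N) ℚ)) (D : Fin n → ℕ) (M : ℕ) :
    SelmerSet S D M = Pool.Agent.R419.ST.SelQ S D M := by
  ext ξ
  constructor
  · rintro ⟨h1, h2, h3, h4⟩
    refine ⟨h1, h2, fun p _ => ?_, ?_⟩
    · obtain ⟨x, hx, h⟩ := h3 p
      exact ⟨x.1, x.2, hx, h⟩
    · obtain ⟨x, hx, h⟩ := h4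
      exact ⟨x.1, x.2, hx, h⟩
  · rintro ⟨h1, h2, h3, h4⟩
    refine ⟨h1, h2, fun p _ => ?_, ?_⟩
    · obtain ⟨u, P, hx, h⟩ := h3 p
      exact ⟨(u, P), hx, h⟩
    · obtain ⟨u, P, hx, h⟩ := h4
      exact ⟨(u, P), hx, h⟩

lemma good {D : ℕ} (h : InClass D ∧ FiniteAndTrivial D) : Pool.Agent.R419.ST.GoodQ D :=
  ⟨h.1.2.1, h.2.1, h.2.2⟩

theorem E_eq (D : ℕ) : Pool.Agent.Y703.CT.EQ (Pool.Agent.Y703.CT.WD D) = curve D := by
  unfold Pool.Agent.Y703.CT.EQ Pool.Agent.Y703.CT.WD curve WeierstrassCurve.map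
  simp

theorem three_iff (D : ℕ) : FiniteAndTrivial D ↔ Pool.Agent.Y703.CT.Triv3 D := by
  unfold FiniteAndTrivial Pool.Agent.Y703.CT.Triv3
  rw [E_eq]

theorem class_iff (D : ℕ) : InClass D ↔ Pool.Agent.R419.CG.Cls D := by
  unfold InClass Pool.Agent.R419.CG.Cls Pool.Agent.Y703.CT.Base
  simp only [Finset.mem_insert, Finset.mem_singleton]
  constructor
  · rintro ⟨h2, h4, h6⟩
    refine ⟨⟨?_, ?_, h2⟩, h4, ?_, h6⟩
    · rintro rfl
      omega
    · omega
    · omega
  · rintro ⟨⟨h1, h3, h2⟩, h4, h5, h6⟩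
    exact ⟨h2, h4, h6⟩

end

theorem result : ProportionLaw ∧ OneLevel ∧ ComponentsAtThree ∧ Example := by
  refine ⟨⟨?_, ?_, Pool.Agent.Y461.CX.t_C3.2.2.2⟩, ?_, ?_, ?_, ?_⟩
  · have e2 : ∀ X : ℕ, (Finset.Icc 1 X).filter (fun D => InClass D) =
        (Finset.Icc 1 X).filter fun D => Pool.Agent.R419.CG.Cls D := by
      intro X
      refine Finset.filter_congr fun D _ => ?_
      rw [class_iff]
    simp only [e2]
    exact Pool.Agent.R419.CG.low
  · have h := Pool.Agent.R419.CG.t_FIN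
    unfold Pool.Agent.Y703.CX.c3 at h
    have e2 : ∀ X : ℕ, (Finset.Icc 1 X).filter (fun D => InClass D) =
        (Finset.Icc 1 X).filter fun D => Pool.Agent.R419.CG.Cls D := by
      intro X
      refine Finset.filter_congr fun D _ => ?_
      rw [class_iff]
    have e1 : ∀ X : ℕ, (Finset.Icc 1 X).filter (fun D => InClass D ∧ FiniteAndTrivial D) =
        (Finset.Icc 1 X).filter fun D => Pool.Agent.R419.CG.Cls D ∧
          Pool.Agent.Y703.CT.NoSplit D := by
      intro X
      refine Finset.filter_congr fun D _ => ?_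
      rw [← class_iff]
      refine and_congr_right fun hC => ?_
      obtain ⟨-, f, -, u, -, -, -, h2⟩ := Pool.Agent.Y703.CT.fin_all ((class_iff D).1 hC).cls
      exact (three_iff D).trans h2
    simp only [e1, e2]
    exact h
  · intro n N S hS Z hZ hA
    obtain ⟨k, hk⟩ := Pool.Agent.R419.ST.uniform S hS Z hZ (by
      intro d hd hc t u hu
      have h1 := hA d hd hc t u hu
      unfold Vanish at h1
      push Not at h1
      exact h1)
    exact ⟨k, fun D hD hDZ => by rw [sel_eq]; exact hk D (fun i => good (hD i)) hDZ⟩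
  · intro n N S hS D hD
    refine ⟨fun x _ h i => ?_, ?_⟩
    · exact Pool.Agent.R419.ST.comp_tau S D (fun i => good (hD i)) x.2 (fun k => by
        obtain ⟨ξ, hξ, hc⟩ := h k
        exact ⟨ξ, by rw [sel_eq] at hξ; exact hξ, hc⟩) i
    · rintro rfl hX
      obtain ⟨k, hk⟩ := Pool.Agent.R419.ST.closed_case S hS D (fun i => good (hD i)) (by
        rintro ⟨u, y, hu, hy⟩
        have h1 : (u, y) ∈ RationalPoints S D := ⟨hu, hy⟩
        rw [hX] at h1
        exact h1)
      exact ⟨k, by rw [sel_eq]; exact hk⟩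
  · intro D hD
    obtain ⟨h1, h2⟩ := Pool.Agent.R419.ST.ex_loc hD
    refine ⟨fun p _ => ?_, ?_⟩
    · obtain ⟨u, P, h⟩ := h1 p
      exact ⟨(u, P), h⟩
    · obtain ⟨u, P, h⟩ := h2
      exact ⟨(u, P), h⟩
  · intro D h1 h2
    rw [sel_eq]
    exact Pool.Agent.R419.ST.ex_sel (good ⟨h1, h2⟩)

end Pool.Agent.Results.MP_d37f77_nt.CubicTwistFamilies
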