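import Pool.Agent.R925.FD.Two

/-!
# Finite descent on almost all twists of a cyclic covering of a fixed curve

Let `D : b y ^ n = ∏ k, G k (z, w)` be a curve over `ℚ`, where the `G k` are the homogenisations of
polynomials `g k` with integral coefficients, of degrees divisible by `n`, pairwise coprime, and let
`h` be a polynomial with integral coefficients, coprime to the `g k`, and `H` its homogenisation. For
a squarefree integer `a` and `m ≥ 2`, `m ∣ deg h`, consider the curve

  `C a : b y ^ n = ∏ k, G k (z, w)`, `a x ^ m = H (z, w)`.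

It is a cyclic covering of degree `m` of `D`, ramified over the zeros of `h`, and for different `a`
these coverings are twists of each other. If the `g k` and `h` are separable, it is a smooth curve
(in a weighted projective space), and the curves

  `D δ : G k (z, w) = δ k * y k ^ n` (all `k`), `a x ^ m = H (z, w)`,

`∏ δ k = b t ^ n`, are étale coverings of `C a`, with Galois group killed by `n` (over the algebraic
closure), so that every `n`-covering of `C a` factors through one of them. So if no `D δ` has points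
everywhere locally, the `n`-Selmer set of `C a` is empty.

Call the class `δ` persistent if every automorphism `σ` of the field of algebraic numbers fixes a zero
`β` of `h` and solutions `y k` of `g k (β) = δ k * y k ^ n` (all `k`). We prove:

(1) for all squarefree `a`, `|a| ≤ X`, with at most `C X (log X) ^ (-κ)` exceptions, `κ > 0`, all the
coverings `D δ` of `C a` (all `m`) with points over all the fields `ℚ_p` are persistent. So if there
are no persistent classes, then finite descent shows that almost all `C a` have no rational points.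

(2) If `n = 2` and the zeros of `h` are one or two integers, the persistent classes are those of the
rational points over the zeros of `h`. So for almost all `a` the coverings `D δ` of `C a` satisfy the
Hasse principle: those with points over all `ℚ_p` have rational points.

(3) For `n = 2`, `D : y² = (z² + 51) (z² - 1)` and `h = (z² + 1) (z² - 17) (z² + 17)` there are no
persistent classes, but all the curves `C a`, `m ∈ {2, 3, 6}`, have points over `ℝ` and all `ℚ_p`. The
curve `D` has genus one and rational points like `(1, 0)` and `(11 / 2, 195 / 4)`; `C a` has genus 13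
for `m = 3`.

The case `m = 2` of the example also follows from the starting file `AlmostAllTwists` (and the Selmer
sets of the curves `a x² = H (z, w)`); there the numbers `δ k` can be divisible by the prime divisors
of `a`, and the proof uses bilinear sums of Jacobi symbols. Here the coverings come from the fixed
curve `D`, so that up to `n`-th powers there are only finitely many `δ` to consider, which do not
depend on `a`, and the proof is different: at a prime `p ∣ a` a point over `ℚ_p` reduces to a zero of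
`h`, and for a class which is not persistent there is a set of primes of positive density (theorem of
Chebotarev) for which this is impossible.
-/

set_option autoImplicit false

namespace Pool.Agent.Results.MP_d37f77_nt.TwistedCyclicCoverings

open Polynomial Pool.Agent.R925.FD

/-- The conditions on the polynomials: nonzero, the `g k` of degrees divisible by `n`, pairwise
coprime over `ℚ` and coprime to `h`. -/
structure Admissible {K : Type} (n : ℕ) (b : ℤ) (g : K → ℤ[X]) (h : ℤ[X]) : Prop where
  n_pos : 0 < n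
  b_ne : b ≠ 0
  g_ne : ∀ k, g k ≠ 0
  h_ne : h ≠ 0
  deg : ∀ k, n ∣ (g k).natDegree
  coprime : ∀ k l, k ≠ l →
    IsCoprime ((g k).map (Int.castRingHom ℚ)) ((g l).map (Int.castRingHom ℚ))
  coprime_h : ∀ k, IsCoprime (h.map (Int.castRingHom ℚ)) ((g k).map (Int.castRingHom ℚ))

/-- The covering `D δ` of the curve `C a` has points over all the fields `ℚ_p`. -/
def LocallySoluble {K : Type} (n m : ℕ) (a : ℤ) (g : K → ℤ[X]) (h : ℤ[X]) (δ : K → ℚ) : Prop :=
  ∀ (p : ℕ) [Fact p.Prime], CoveringHasPoint n m a g h δ ℚ_[p]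

theorem result :
    (∀ (K : Type) [Fintype K] (n : ℕ) (b : ℤ) (g : K → ℤ[X]) (h : ℤ[X]), Admissible n b g h →
      (∃ κ : ℝ, 0 < κ ∧ ∃ C : ℝ, ∀ X : ℕ, 3 ≤ X →
        ({a : ℤ | a.natAbs ≤ X ∧ Squarefree a ∧ ∃ m, 2 ≤ m ∧ m ∣ h.natDegree ∧ ∃ δ : K → ℚ,
          IsClass n b δ ∧ LocallySoluble n m a g h δ ∧ ¬ Persistent n g h δ}.ncard : ℝ) ≤
          C * X * (Real.log X) ^ (-κ)) ∧
      ∀ (a : ℤ) (m : ℕ), CurveHasPoint n m b a g h ℚ →
        ∃ δ : K → ℚ, IsClass n b δ ∧ CoveringHasPoint n m a g h δ ℚ) ∧
    (∀ (K : Type) [Fintype K] (b : ℤ) (g : K → ℤ[X]) (h : ℤ[X]) (α₁ α₂ : ℤ), Admissible 2 b g h →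
      (∀ β : AlgebraicClosure ℚ, aeval β h = 0 ↔ β = α₁ ∨ β = α₂) →
      ∃ κ : ℝ, 0 < κ ∧ ∃ C : ℝ, ∀ X : ℕ, 3 ≤ X →
        ({a : ℤ | a.natAbs ≤ X ∧ Squarefree a ∧ ∃ m, 2 ≤ m ∧ m ∣ h.natDegree ∧ ∃ δ : K → ℚ,
          IsClass 2 b δ ∧ LocallySoluble 2 m a g h δ ∧
            ¬ CoveringHasPoint 2 m a g h δ ℚ}.ncard : ℝ) ≤ C * X * (Real.log X) ^ (-κ)) ∧
    (Admissible 2 1 exg exh ∧ (∀ δ, IsClass 2 1 δ → ¬ Persistent 2 exg exh δ) ∧
      ∀ (a : ℤ) (m : ℕ), m ≠ 0 → CurveHasPoint 2 m 1 a exg exh ℝ ∧
        ∀ (p : ℕ) [Fact p.Prime], CurveHasPoint 2 m 1 a exg exh ℚ_[p]) := by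
  classical
  refine ⟨fun K _ n b g h hA => ⟨?_, fun a m hC => ?_⟩, fun K _ b g h α₁ α₂ hA hz => ?_, ?_, ?_, ?_⟩
  · obtain ⟨κ, hκ, C, hC⟩ := main n hA.n_pos b hA.b_ne g h hA.g_ne hA.h_ne hA.deg hA.coprime
      hA.coprime_h
    refine ⟨κ, hκ, C, fun X hX => le_trans ?_ (hC X hX)⟩
    refine Nat.cast_le.2 (Set.ncard_le_ncard ?_ ?_)
    · rintro a ⟨h1, h2, m, hm, hmh, δ, h3, h4, h5⟩
      exact ⟨h1, h2, m, hm, hmh, δ, h3, h5, h4⟩
    · apply (Set.finite_Icc (-(X : ℤ)) X).subset
      intro d hd
      have h1 : d.natAbs ≤ X := hd.1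
      rw [Set.mem_Icc]
      omega
  · exact exists_class n m hA.n_pos b a hA.b_ne g h hA.g_ne hA.coprime hC
  · obtain ⟨κ, hκ, C, hC⟩ := main 2 hA.n_pos b hA.b_ne g h hA.g_ne hA.h_ne hA.deg hA.coprime
      hA.coprime_h
    refine ⟨κ, hκ, C, fun X hX => le_trans ?_ (hC X hX)⟩
    refine Nat.cast_le.2 (Set.ncard_le_ncard ?_ ?_)
    · rintro a ⟨h1, h2, m, hm, hmh, δ, h3, h4, h5⟩
      refine ⟨h1, h2, m, hm, hmh, δ, h3, fun hper => h5 ?_, h4⟩
      -- the zeros of `h`
      have hzero : ∀ α : ℤ, aeval (α : AlgebraicClosure ℚ) h = 0 → h.eval α = 0 := by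
        intro α hα
        have h6 := aeval_algebraMap_apply_eq_algebraMap_eval (A := AlgebraicClosure ℚ) α h
        rw [eq_intCast, eq_intCast, hα] at h6
        exact_mod_cast h6.symm
      have hpt : ∀ (f : ℤ[X]) (α : ℤ), hom f (α : ℚ) 1 = ((f.eval α : ℤ) : ℚ) := by
        intro f α
        rw [hom_one]
        have h6 := eval₂_at_apply (p := f) (Int.castRingHom ℚ) α
        rw [eq_intCast, eq_intCast] at h6
        exact h6
      have hg : ∀ (k : K) (α : ℤ), h.eval α = 0 → (g k).eval α ≠ 0 := by
        intro k α hα hgα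
        refine coprime_field hA.h_ne (hA.coprime_h k) (F := ℚ) (z := (α : ℚ)) (w := 1)
          (Or.inr one_ne_zero) ?_ ?_
        · rw [hpt, hα, Int.cast_zero]
        · rw [hpt, hgα, Int.cast_zero]
      have hα₁ := hzero α₁ ((hz α₁).2 (Or.inl rfl))
      have hα₂ := hzero α₂ ((hz α₂).2 (Or.inr rfl))
      have key : ∀ α : ℤ, h.eval α = 0 → (∀ k, IsSquare (δ k * ((g k).eval α : ℤ))) →
          CoveringHasPoint 2 m a g h δ ℚ := by
        intro α hα hsq
        refine ⟨α, 1, 0, Or.inr one_ne_zero, ?_, fun k => ?_⟩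
        · rw [hpt, hα, zero_pow (by omega : m ≠ 0), mul_zero, Int.cast_zero]
        · obtain ⟨r, hr⟩ := hsq k
          have h7 := h3.1 k
          refine ⟨r / δ k, ?_⟩
          rw [hpt, Rat.cast_id, div_pow, sq r, ← hr]
          field_simp
      rcases persistent_two g h α₁ α₂ (fun β hβ => (hz β).1 hβ) (fun k => hg k α₁ hα₁)
        (fun k => hg k α₂ hα₂) δ h3.1 hper with h6 | h6
      · exact key α₁ hα₁ h6
      · exact key α₂ hα₂ h6
    · apply (Set.finite_Icc (-(X : ℤ)) X).subset
      intro d hd
      have h1 : d.natAbs ≤ X := hd.1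
      rw [Set.mem_Icc]
      omega
  · exact ⟨by norm_num, one_ne_zero, exg_ne, exh_ne, fun k => by rw [exg_deg k], exg_coprime,
      exgh_coprime⟩
  · intro δ hδ
    exact ex_not_persistent δ (hδ.1 0)
  · intro a m hm
    exact ⟨ex_real m hm a, fun p _ => ex_padic m hm a p⟩

end Pool.Agent.Results.MP_d37f77_nt.TwistedCyclicCoverings
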