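import Pool.Agent.R425.D.TwZ

/-!
# Finite descent of a uniform level for twisted fibre products

Let `E_i : y² = f_i(x)`, `i = 1, …, n`, be elliptic curves over `ℚ` with trivial 2-Selmer groups, and let
`Y` be a closed subset of `(ℙ¹)ⁿ` over `ℚ`, for instance a curve.  For non-zero integers `D_1, …, D_n` let
`X_D` be the inverse image of `Y` in the product of the quadratic twists `D_i y_i² = f_i(x_i)`.  For a
curve `Y` the `X_D` are curves, in general of large genus, with `n` parameters; for `n = 2` and a map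
`φ` of `ℙ¹` they are the curves `D_1 y² = f_1(x)`, `D_2 z² = f_2(φ(x))`.

Theorem.  Suppose that on `X = X_(1,…,1)` there is no point over `ℚ_2` all whose components have odd
order.  Then there is ONE level `2 ^ k` such that the `2 ^ k`-Selmer set of `X_D` over `ℚ` is empty for all
the `D` whose components `D_i` are products `∏ (-1)^((q-1)/2) q` of primes `q ∤ 2Δ_i` modulo which `E_i`
has an odd number of points, with the local conditions that the `D_i` are squares in `ℚ_p` for the
primes `p` dividing `2Δ_i` (and `D_i > 0` if `Δ_i > 0`).  So for all these curves it is explained by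
coverings of exponent `2 ^ k` that there are no rational points; nothing is assumed about
Tate-Shafarevich groups.

Example (second part of the theorem): `E_1 = E_2 = X_0(11)`, given by `f(x) = x³ - 13392 x - 1080432`,
and `Y : x_1 x_2 = 21039`; the `X_D` are smooth curves of genus five,
`D_1 y² = f(x)`, `D_2 z² = f(21039/x)`.  According to a computation (which is not part of the theorem)
many of them have points over all completions of `ℚ`, for example those with
`(D_1, D_2) = (1, 1), (97, 1945), (313, 6913)`; the theorem explains these counterexamples to the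
Hasse principle.

The proof.  The 2-Selmer groups of the `E_i` over `K = ℚ(√D_i)` are trivial; by restriction, and as
`E_i(K)` has odd order, `Ш(E_i^{D_i}/ℚ)[2] = 0` and `E_i^{D_i}(ℚ)` has odd order.  So a
`2 ^ k`-covering with points everywhere locally is trivial, and a point over `ℚ_2` which lifts to it is
divisible by `2 ^ k` in `E_i^{D_i}(ℚ_2) = E_i(ℚ_2)`; by compactness `X(ℚ_2)` has no point divisible by
`2 ^ k` for some `k`.
-/

set_option autoImplicit false

open IsDedekindDomain NumberField WeierstrassCurve MvPolynomial Pool.Agent.TH954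

open scoped Classical

namespace Pool.Agent.Results.MP_d37f77_nt.TwistedFibreProducts

section descent

variable {K : Type} [Field K] {n : ℕ}

/-- The `L`-rational points of the closed subset `X` of `E_1 × … × E_n` defined by the equations in
`S` in the homogeneous coordinates of the `n` points. -/
def LocalPoints (E : Fin n → WeierstrassCurve K) (S : Set (MvPolynomial (Fin n × Fin 3) K))
    (L : Type) [Field L] [Algebra K L] : Set ((i : Fin n) → ((E i).baseChange L).toAffine.Point) :=
  {P | OnX S (fun i => crd (P i))}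

/-- The `L`-rational point `P` of `E_1 × … × E_n` lifts to an `L`-rational point of the `N`-covering
given by the cocycles `ξ i`: there are points `Q i` over the algebraic closure with `N • Q i = P i`
on which the Galois group of `L` acts by translation by the `ξ i`. -/
def Lifts (E : Fin n → WeierstrassCurve K) (N : ℕ)
    (ξ : (i : Fin n) → (AlgebraicClosure K ≃ₐ[K] AlgebraicClosure K) → AlgPt (E i) K)
    (L : Type) [Field L] [Algebra K L] (P : (i : Fin n) → ((E i).baseChange L).toAffine.Point) :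
    Prop :=
  ∃ (ι : AlgebraicClosure K →ₐ[K] AlgebraicClosure L) (Q : (i : Fin n) → AlgPt (E i) L),
    (∀ i, N • Q i = incl (E i) L (P i)) ∧
      ∀ i σ τ, Compat ι σ τ → pm (E i) ι (ξ i τ) = act (E i) σ (Q i) - Q i

/-- The `N`-Selmer set of `X`: the `N`-coverings of `E_1 × … × E_n` over `K` whose pull-backs to `X`
have points over all the completions of `K`. -/
def SelmerSet [NumberField K] (E : Fin n → WeierstrassCurve K)
    (S : Set (MvPolynomial (Fin n × Fin 3) K)) (N : ℕ) :
    Set ((i : Fin n) → (AlgebraicClosure K ≃ₐ[K] AlgebraicClosure K) → AlgPt (E i) K) :=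
  {ξ | (∀ i, IsCocycle (E i) (ξ i)) ∧ (∀ i σ, N • ξ i σ = 0) ∧
    (∀ v : HeightOneSpectrum (𝓞 K), ∃ P ∈ LocalPoints E S (v.adicCompletion K),
      Lifts E N ξ (v.adicCompletion K) P) ∧
    ∀ w : InfinitePlace K, ∃ P ∈ LocalPoints E S w.Completion, Lifts E N ξ w.Completion P}

end descent

/-- The 2-Selmer group of `W` over `ℚ` is trivial: `W(ℚ)` is finite of odd order and `Ш(W/ℚ)` has no
element of order two. -/
def TrivialTwoSelmer (W : WeierstrassCurve ℤ) : Prop :=
  Finite (W.map (Int.castRingHom ℚ)).toAffine.Point ∧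
  Odd (Nat.card (W.map (Int.castRingHom ℚ)).toAffine.Point) ∧
  ∀ s : Pool.Agent.TH841.NF.D.Sha (W.map (Int.castRingHom ℚ)), 2 • s = 0 → s = 0

/-- `W` is an elliptic curve `y² = x³ + a x + b` with integral coefficients. -/
def IsShort (W : WeierstrassCurve ℤ) : Prop := (W.a₁ = 0 ∧ W.a₂ = 0 ∧ W.a₃ = 0) ∧ W.Δ ≠ 0

/-- The number of the points of `W` over `ℤ/l`, with the point at infinity. -/
noncomputable def pointCount (W : WeierstrassCurve ℤ) (l : ℕ) : ℕ :=
  Nat.card {P : ZMod l × ZMod l //
    (W.map (Int.castRingHom (ZMod l))).toAffine.Equation P.1 P.2} + 1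

/-- The discriminant of the finite set `T` of odd primes, `∏_{q ∈ T} (-1)^((q-1)/2) q`. -/
def disc (T : Finset ℕ) : ℤ := ∏ q ∈ T, (-1) ^ ((q - 1) / 2) * (q : ℤ)

/-- `T` consists of primes `q ∤ 2Δ` such that `W` has an odd number of points over `ℤ/q`, the primes
dividing `2Δ` split in the quadratic field of discriminant `disc T` (so `disc T` is a square in
`ℚ_p` for these `p`), and `disc T` is positive if `Δ` is. -/
structure Allowed (W : WeierstrassCurve ℤ) (T : Finset ℕ) : Prop where
  adm : ∀ q ∈ T, q.Prime ∧ ¬ (q : ℤ) ∣ 2 * W.Δ ∧ Odd (pointCount W q)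
  split : ∀ p : ℕ, p.Prime → (p : ℤ) ∣ 2 * W.Δ → jacobiSym p (∏ q ∈ T, q) = 1
  pos : 0 < W.Δ → 0 < disc T

/-- The quadratic twist `y² = x³ + a D² x + b D³` of `y² = x³ + a x + b`; it is isomorphic to
`D y² = x³ + a x + b`. -/
def twist (W : WeierstrassCurve ℤ) (D : ℤ) : WeierstrassCurve ℤ :=
  ⟨0, 0, 0, W.a₄ * D ^ 2, W.a₆ * D ^ 3⟩

section twists

variable {n : ℕ}

/-- The polynomial `f` contains only even powers of the `y`-coordinates of the points. -/
def EvenInY (f : MvPolynomial (Fin n × Fin 3) ℚ) : Prop := ∀ m ∈ f.support, ∀ i, Even (m (i, 1))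

/-- The polynomial `f(X_i, Y_i / √D_i, D_i Z_i)`: if `f = 0` is an equation of `X` then this is the
equation of `X_D` in the coordinates of the curves `twist (W i) (D i)`, whose points are
`(X_i : Y_i : Z_i) = (D_i x_i : D_i ^ 2 y_i : 1)` with `D_i y_i² = x_i³ + a_i x_i + b_i`. -/
noncomputable def twistEq (D : Fin n → ℤ) (f : MvPolynomial (Fin n × Fin 3) ℚ) :
    MvPolynomial (Fin n × Fin 3) ℚ :=
  ∑ m ∈ f.support, monomial m (coeff m f *
    ∏ i, (((D i : ℤ) : ℚ) ^ m (i, 2) * (((D i : ℤ) : ℚ)⁻¹) ^ (m (i, 1) / 2)))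

/-- There is no point over `ℚ_2` of `X` all whose components have odd order. -/
def NoOddOrderPoint (W : Fin n → WeierstrassCurve ℤ) (S : Set (MvPolynomial (Fin n × Fin 3) ℚ)) :
    Prop :=
  ∀ P : (i : Fin n) → ((W i).map (Int.castRingHom ℚ_[2])).toAffine.Point,
    (∀ f ∈ S, eval (fun p => crd (P p.1) p.2) (map (algebraMap ℚ ℚ_[2]) f) = 0) →
      ∃ i, ∀ m : ℕ, Odd m → m • P i ≠ 0

end twists

/-- The curve `y² = x³ - 13392 x - 1080432`, a short equation of `X_0(11)`. -/
def X11 : WeierstrassCurve ℤ := ⟨0, 0, 0, -13392, -1080432⟩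

/-- `Y_i² + 13392 X_i Z_i + 1080432 Z_i²`; on `X_0(11)` one has `(X : Z) = (this : X²)`. -/
noncomputable def q (i : Fin 2) : MvPolynomial (Fin 2 × Fin 3) ℚ :=
  X (i, 1) ^ 2 + C 13392 * (X (i, 0) * X (i, 2)) + C 1080432 * X (i, 2) ^ 2

/-- The equations of the curve `x_1 x_2 = 21039` on the square of `X_0(11)`, where `x_i = ∞` at the
origin; each of the two coordinates `x_i` is written as `X_i / Z_i` or as `q i / X_i²`. -/
noncomputable def exampleEqs : Set (MvPolynomial (Fin 2 × Fin 3) ℚ) :=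
  {X (0, 0) * X (1, 0) - C 21039 * (X (0, 2) * X (1, 2)),
    q 0 * X (1, 0) - C 21039 * (X (0, 0) ^ 2 * X (1, 2)),
    X (0, 0) * q 1 - C 21039 * (X (0, 2) * X (1, 0) ^ 2),
    q 0 * q 1 - C 21039 * (X (0, 0) ^ 2 * X (1, 0) ^ 2)}

section

variable {K : Type} [Field K] [NumberField K] {n : ℕ}

lemma sel_iff (E : Fin n → WeierstrassCurve K) (S : Set (MvPolynomial (Fin n × Fin 3) K)) (N : ℕ) :
    SelmerSet E S N = Pool.Agent.R425.D.SelSet E S N := by
  ext ξ
  have key : ∀ (L : Type) [Field L] [Algebra K L],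
      (∃ P ∈ LocalPoints E S L, Lifts E N ξ L P) ↔ Pool.Agent.R425.D.CovPt E S N ξ L := by
    intro L _ _
    constructor
    · rintro ⟨P, hP, ι, Q, h1, h2⟩
      exact ⟨ι, P, Q, hP, h1, h2⟩
    · rintro ⟨ι, P, Q, hP, h1, h2⟩
      exact ⟨P, hP, ι, Q, h1, h2⟩
  constructor
  · rintro ⟨h1, h2, h3, h4⟩
    exact ⟨h1, h2, fun v => (key _).1 (h3 v), fun w => (key _).1 (h4 w)⟩
  · rintro ⟨h1, h2, h3, h4⟩
    exact ⟨h1, h2, fun v => (key _).2 (h3 v), fun w => (key _).2 (h4 w)⟩

lemma allowed_of {W : WeierstrassCurve ℤ} {T : Finset ℕ} (h : Allowed W T) :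
    Pool.Agent.R425.D.Allowed W T :=
  ⟨h.adm, h.split, h.pos⟩

lemma free_iff (W : Fin n → WeierstrassCurve ℤ) (S : Set (MvPolynomial (Fin n × Fin 3) ℚ)) :
    NoOddOrderPoint W S ↔ Pool.Agent.R425.D.OddFree W S := by
  constructor
  · intro h P hP
    exact h P fun f hf => hP _ ⟨f, hf, rfl⟩
  · intro h P hP
    refine h P ?_
    rintro _ ⟨f, hf, rfl⟩
    exact hP f hf

lemma example_eq : exampleEqs = Pool.Agent.R425.D.exS := by
  unfold exampleEqs Pool.Agent.R425.D.exS q Pool.Agent.R425.D.qq
  simp only [pow_one]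

end

theorem result :
    (∀ (n : ℕ) (W : Fin n → WeierstrassCurve ℤ), (∀ i, IsShort (W i)) →
      (∀ i, TrivialTwoSelmer (W i)) →
      ∀ S : Set (MvPolynomial (Fin n × Fin 3) ℚ), (∀ f ∈ S, EvenInY f ∧ ∃ d, MultiHom d f) →
      NoOddOrderPoint W S →
      ∃ k : ℕ, ∀ T : Fin n → Finset ℕ, (∀ i, Allowed (W i) (T i)) →
        SelmerSet (fun i => (twist (W i) (disc (T i))).map (Int.castRingHom ℚ))
          (twistEq (fun i => disc (T i)) '' S) (2 ^ k) = ∅) ∧
    (IsShort X11 ∧ TrivialTwoSelmer X11 ∧ (∀ f ∈ exampleEqs, EvenInY f ∧ ∃ d, MultiHom d f) ∧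
      NoOddOrderPoint (fun _ : Fin 2 => X11) exampleEqs) := by
  refine ⟨?_, ?_, ?_, ?_, ?_⟩
  · intro n W hW hT S hS hno
    obtain ⟨k, hk⟩ := Pool.Agent.R425.D.thmT (fun i => (hW i).1) (fun i => (hW i).2) hT S hS
      ((free_iff W S).1 hno)
    refine ⟨k, fun T hA => ?_⟩
    have h1 := hk T (fun i => allowed_of (hA i))
    rw [sel_iff]
    have e : twistEq (fun i => disc (T i)) '' S = {g | ∃ f ∈ S,
        g = Pool.Agent.R425.D.twp (fun i => Pool.Agent.Y18.BSD.disc (T i)) f} := by
      ext g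
      constructor
      · rintro ⟨f, hf, rfl⟩
        exact ⟨f, hf, rfl⟩
      · rintro ⟨f, hf, rfl⟩
        exact ⟨f, hf, rfl⟩
    rw [e]
    exact h1
  · exact ⟨⟨rfl, rfl, rfl⟩, Pool.Agent.R425.D.disc11⟩
  · exact Pool.Agent.R425.D.sel11s
  · rw [example_eq]
    exact Pool.Agent.R425.D.exS_me
  · rw [example_eq, free_iff]
    exact Pool.Agent.R425.D.ex_free

end Pool.Agent.Results.MP_d37f77_nt.TwistedFibreProducts
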