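import Pool.Agent.Results.MP_d37f77_nt.AlmostAllTwists
import Pool.Agent.R482.ST.Mills
import Mathlib.Algebra.Polynomial.Cardinal

/-!
# 2-descent shows that the curves `d y² = f(x)` with `d` near `α ^ (3 ^ n)` have no rational points

Let `v_n ≥ 1` be reals growing faster than every power of `n` and let `L_n ≥ 1` be such that the sums of `L_n v_n ^ (-t)`
converge for all `t > 0` (`v_n = 3 ^ n` as in Mills's theorem, or `v_n = exp (√n)`, and `L_n = n ^ A`). For almost every `α > 1`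
and ALL families `f` of polynomials (irreducible, of even degrees, pairwise non-associated), for all but finitely many `n`:
for ALL integers `d ≠ 0` with `||d| - α ^ (v_n)| ≤ L_n` no 2-covering of the curve `d y² = ∏ k, F k (x, w)` has points
everywhere locally, so that the curve has no rational points. In particular this holds for `d = ± ⌊α ^ (3 ^ n)⌋`.
-/

set_option autoImplicit false

namespace Pool.Agent.Results.MP_d37f77_nt.TwistsNearPowers

open MeasureTheory Filter Topology Polynomial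
open AlmostAllTwists (CurveHasPoint CoveringHasPoint SelmerNonempty Adm ex)

lemma isSquare_of_mul_sq {a m : ℤ} (hm : m ≠ 0) (h : IsSquare (a * m ^ 2)) : IsSquare a := by
  obtain ⟨r, hr⟩ := h
  have h1 : m ^ 2 ∣ r ^ 2 := ⟨a, by rw [pow_two r, ← hr]; ring⟩
  have h2 : m ∣ r := (Int.pow_dvd_pow_iff two_ne_zero).1 h1
  obtain ⟨t, rfl⟩ := h2
  refine ⟨t, ?_⟩
  have h3 : m ^ 2 * a = m ^ 2 * (t * t) := by rw [← mul_comm a, hr]; ring
  exact mul_left_cancel₀ (pow_ne_zero 2 hm) h3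

lemma selmer_sq {K : Type} [Fintype K] {f : K → ℤ[X]} {s m : ℤ} (hm : m ≠ 0)
    (h : SelmerNonempty f (s * m ^ 2)) : SelmerNonempty f s := by
  obtain ⟨δ, h1, h2, h3, h4⟩ := h
  refine ⟨δ, h1, isSquare_of_mul_sq hm ?_, h3, h4⟩
  rw [show s * m ^ 2 * ∏ k, δ k = s * (∏ k, δ k) * m ^ 2 by ring] at h2
  exact h2

/-- **Theorem.** Let `v_n ≥ 1`, `L_n ≥ 1` be reals such that the sums of `L_n v_n ^ (-t)` converge for all `t > 0`. There is a null
set `Z` such that for all `α > 1` outside `Z` and ALL families `f` of polynomials with the property `Adm`, for all but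
finitely many `n`, for ALL integers `d ≠ 0` with `||d| - α ^ (v_n)| ≤ L_n` the curve `d y² = ∏ k, F k (x, w)` has no
2-covering with points everywhere locally, and no rational point. The family `ex` has this property, and all of
its curves have points everywhere locally. -/
theorem result :
    (∀ v L : ℕ → ℝ, (∀ n, 1 ≤ v n) → (∀ n, 1 ≤ L n) → (∀ t : ℝ, 0 < t → Summable fun n => L n * (v n) ^ (-t)) →
      ∃ Z : Set ℝ, volume Z = 0 ∧ ∀ α : ℝ, 1 < α → α ∉ Z → ∀ (r : ℕ) (f : Fin r → ℤ[X]), Adm f →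
        ∃ n₀ : ℕ, ∀ n : ℕ, n₀ ≤ n → ∀ d : ℤ, d ≠ 0 → |(|d| : ℝ) - α ^ (v n)| ≤ L n →
          ¬ SelmerNonempty f d ∧ ¬ CurveHasPoint f d ℚ) ∧
    (Adm ex ∧ ∀ d : ℤ, CurveHasPoint ex d ℝ ∧ ∀ (p : ℕ) [Fact p.Prime], CurveHasPoint ex d ℚ_[p]) := by
  refine ⟨fun v L hv hL hs => ?_, AlmostAllTwists.result.2⟩
  have : Countable ℤ[X] := by
    rw [← Cardinal.mk_le_aleph0_iff]
    exact Polynomial.cardinalMk_le_max.trans (by simp)
  have hone : ∀ F : (Σ r : ℕ, (Fin r → ℤ[X])), ∃ Z : Set ℝ, volume Z = 0 ∧ (Adm F.2 →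
      ∀ α : ℝ, 1 < α → α ∉ Z → ∃ n₀ : ℕ, ∀ n : ℕ, n₀ ≤ n → ∀ d : ℤ, d ≠ 0 → |(|d| : ℝ) - α ^ (v n)| ≤ L n →
          ¬ SelmerNonempty F.2 d ∧ ¬ CurveHasPoint F.2 d ℚ) := by
    rintro ⟨r, f⟩
    by_cases hf : Adm f
    · obtain ⟨⟨δ, hδ, C, hC⟩, h2⟩ := AlmostAllTwists.result.1 (Fin r) f hf
      obtain ⟨Z, hZ, hw⟩ := Pool.Agent.R482.ST.mills_twists (fun d => SelmerNonempty f d) hδ 2 hC hv hL (hs δ hδ)
      refine ⟨Z, hZ, fun _ α hα hαZ => ?_⟩
      obtain ⟨n₀, hn⟩ := hw α hα hαZ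
      refine ⟨n₀, fun n hn1 d hd hdw => ?_⟩
      have h3 : ¬ SelmerNonempty f d := by
        intro hsel
        obtain ⟨s, m, h4, h5, rfl⟩ := Pool.Agent.R482.ST.sf_decomp d hd
        refine hn n hn1 s m h4 h5 ?_ (selmer_sq (by omega) hsel)
        push_cast at hdw
        exact hdw
      exact ⟨h3, fun h => h3 (h2 d h)⟩
    · exact ⟨∅, measure_empty, fun h => absurd h hf⟩
  choose Z hZ h using hone
  refine ⟨⋃ F, Z F, measure_iUnion_null hZ, fun α hα hαZ r f hf => ?_⟩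
  rw [Set.mem_iUnion] at hαZ
  push Not at hαZ
  exact h ⟨r, f⟩ hf α hα (hαZ ⟨r, f⟩)

end Pool.Agent.Results.MP_d37f77_nt.TwistsNearPowers
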